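import Pool.Agent.Helper92.AH.Defs

/-!
# CHAIN: the stable ranks mod `p` do not depend on `t`
-/

set_option autoImplicit false

namespace Pool.Agent.Helper92.AH

open MvPolynomial

theorem chain_expand_card {F : Type} [Field F] [Finite F] {N : ℕ} (g : MvPolynomial (Fin N) F) :
    g ^ Nat.card F = expand (Nat.card F) g := by
  classical
  have : Fintype F := Fintype.ofFinite F
  obtain ⟨p, hp⟩ := CharP.exists F
  have hpp : Fact (Nat.Prime p) := ⟨CharP.char_is_prime F p⟩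
  obtain ⟨n, -, hn⟩ := FiniteField.card F p
  rw [Nat.card_eq_fintype_card]
  have hq : (0 : ℕ) < Fintype.card F := Fintype.card_pos
  induction g using MvPolynomial.induction_on with
  | C a => rw [expand_C, ← C_pow, FiniteField.pow_card]
  | add g h hg hh =>
    rw [map_add, ← hg, ← hh, hn]
    exact add_pow_char_pow g h p n
  | mul_X g i hg => rw [map_mul, mul_pow, hg, expand_X]

theorem chain_pow_eq {A : Type} [Monoid A] {a : A} {m n : ℕ} (hm : 0 < m) (hn : 0 < n)
    (h1 : IsIdempotentElem (a ^ m)) (h2 : IsIdempotentElem (a ^ n)) : a ^ m = a ^ n := by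
  have e1 : (a ^ m) ^ n = a ^ m := by
    obtain ⟨k, rfl⟩ := Nat.exists_eq_succ_of_ne_zero hn.ne'
    exact h1.pow_succ_eq k
  have e2 : (a ^ n) ^ m = a ^ n := by
    obtain ⟨k, rfl⟩ := Nat.exists_eq_succ_of_ne_zero hm.ne'
    exact h2.pow_succ_eq k
  rw [← e1, ← e2, ← pow_mul, ← pow_mul, mul_comm]

theorem st_CHAIN (hR : ST_RANK) (hUV : ST_UV) (hI : ST_IDEM) : ST_CHAIN := by
  intro F _ _ N f d
  classical
  obtain ⟨M0, hM0, hM0'⟩ := hI (Matrix (Fin N → Fin (Bx (Nat.card F) d 0))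
    (Fin N → Fin (Bx (Nat.card F) d 0)) F) (CM (Nat.card F) (Bx (Nat.card F) d 0)
    (f ^ ((Nat.card F - 1) * Nat.card F ^ 0)))
  refine ⟨(CM (Nat.card F) (Bx (Nat.card F) d 0)
    (f ^ ((Nat.card F - 1) * Nat.card F ^ 0)) ^ M0).rank, ?_⟩
  intro t
  induction t with
  | zero =>
    intro n hn hid
    rw [chain_pow_eq hn hM0 hid (hM0' M0 hM0 dvd_rfl)]
  | succ t ih =>
    intro n hn hid
    have hq : 1 ≤ Nat.card F := Nat.card_pos
    obtain ⟨Mt, hMt, hMt'⟩ := hI (Matrix (Fin N → Fin (Bx (Nat.card F) d t))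
      (Fin N → Fin (Bx (Nat.card F) d t)) F) (CM (Nat.card F) (Bx (Nat.card F) d t)
      (f ^ ((Nat.card F - 1) * Nat.card F ^ t)))
    have hpow : f ^ ((Nat.card F - 1) * Nat.card F ^ (t + 1)) =
        expand (Nat.card F) (f ^ ((Nat.card F - 1) * Nat.card F ^ t)) := by
      rw [← chain_expand_card, ← pow_mul, pow_succ, mul_assoc]
    obtain ⟨U, V, hU, hV⟩ := hUV F N (Nat.card F) (Bx (Nat.card F) d t)
      (f ^ ((Nat.card F - 1) * Nat.card F ^ t)) hq
    have hidt := hMt' Mt hMt dvd_rfl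
    have ih' := ih Mt hMt hidt
    rw [← ih']
    rw [hV] at hidt ⊢
    rw [hpow] at hid ⊢
    have hU' : CM (Nat.card F) (Bx (Nat.card F) d (t + 1))
      (expand (Nat.card F) (f ^ ((Nat.card F - 1) * Nat.card F ^ t))) = U * V := hU
    rw [hU'] at hid ⊢
    exact hR F _ _ U V n Mt hn hMt hid hidt

end Pool.Agent.Helper92.AH
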