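import Pool.Agent.Helper92.AH.Defs

/-!
# FIELD: finite extensions inside an algebraically closed field
-/

set_option autoImplicit false

namespace Pool.Agent.Helper92.AH

theorem field_part1 (F K : Type) [Field F] [Finite F] [Field K] [IsAlgClosed K] [Algebra F K]
    (n : ℕ) (hn : 0 < n) :
    ∃ (E : Type) (_ : Field E) (_ : Finite E) (_ : Algebra F E), Module.finrank F E = n ∧
      Nonempty (E →ₐ[F] K) := by
  obtain ⟨p, hp⟩ := CharP.exists F
  have : Fact (Nat.Prime p) := ⟨CharP.char_is_prime F p⟩
  have : NeZero n := ⟨hn.ne'⟩
  refine ⟨FiniteField.Extension F p n, inferInstance, inferInstance, inferInstance,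
    FiniteField.finrank_extension F p n, ⟨?_⟩⟩
  have : Algebra.IsAlgebraic F (FiniteField.Extension F p n) := Algebra.IsAlgebraic.of_finite _ _
  exact IsAlgClosed.lift

theorem field_part2 (F K E : Type) [Field F] [Finite F] [Field K] [IsAlgClosed K] [Algebra F K]
    [Field E] [Finite E] [Algebra F E] (φ : E →ₐ[F] K) (z : K) :
    (∃ w, φ w = z) ↔ z ^ (Nat.card F ^ Module.finrank F E) = z := by
  classical
  have : Fintype E := Fintype.ofFinite E
  have : Module.Finite F E := Module.Finite.of_finite
  have hcard : Nat.card F ^ Module.finrank F E = Fintype.card E := by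
    rw [← Module.natCard_eq_pow_finrank, Nat.card_eq_fintype_card]
  rw [hcard]
  constructor
  · rintro ⟨w, rfl⟩
    rw [← map_pow, FiniteField.pow_card]
  · intro hz
    have h1 : 1 < Fintype.card E := Fintype.one_lt_card
    have hne : (Polynomial.X ^ Fintype.card E - Polynomial.X : Polynomial K) ≠ 0 :=
      FiniteField.X_pow_card_sub_X_ne_zero K h1
    have hsub : Finset.univ.image φ ⊆
        (Polynomial.X ^ Fintype.card E - Polynomial.X : Polynomial K).roots.toFinset := by
      intro a ha
      obtain ⟨w, -, rfl⟩ := Finset.mem_image.1 ha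
      rw [Multiset.mem_toFinset, Polynomial.mem_roots hne]
      simp [Polynomial.IsRoot, ← map_pow, FiniteField.pow_card]
    have hinj : Function.Injective φ := (φ : E →+* K).injective
    have hc1 : (Finset.univ.image φ).card = Fintype.card E := by
      rw [Finset.card_image_of_injective _ hinj, Finset.card_univ]
    have hc2 : (Polynomial.X ^ Fintype.card E - Polynomial.X : Polynomial K).roots.toFinset.card
        ≤ Fintype.card E := by
      refine (Multiset.toFinset_card_le _).trans ((Polynomial.card_roots' _).trans ?_)
      rw [FiniteField.X_pow_card_sub_X_natDegree_eq K h1]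
    have heq := Finset.eq_of_subset_of_card_le hsub (by rw [hc1]; exact hc2)
    have hzmem : z ∈
        (Polynomial.X ^ Fintype.card E - Polynomial.X : Polynomial K).roots.toFinset := by
      rw [Multiset.mem_toFinset, Polynomial.mem_roots hne]
      simp [Polynomial.IsRoot, hz]
    rw [← heq] at hzmem
    obtain ⟨w, -, hw⟩ := Finset.mem_image.1 hzmem
    exact ⟨w, hw⟩

theorem st_FIELD : ST_FIELD := by
  refine ⟨?_, ?_⟩
  · intro F K _ _ _ _ _ n hn
    exact field_part1 F K n hn
  · intro F K E _ _ _ _ _ _ _ _ φ z
    exact field_part2 F K E φ z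

end Pool.Agent.Helper92.AH
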