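import Pool.Agent.Helper92.AH.Defs

/-!
# MAINB: the theorem for bounded `l`, inside `K`
-/

set_option autoImplicit false

namespace Pool.Agent.Helper92.AH

theorem mainb_fx_mono {K : Type} [Field K] {N : ℕ} (q n n' : ℕ) (h : n ∣ n')
    (V : Set (Fin N → K)) : fx q n V ⊆ fx q n' V := by
  rintro x ⟨hxV, hx⟩
  refine ⟨hxV, fun i => ?_⟩
  obtain ⟨k, rfl⟩ := h
  induction k with
  | zero => simp
  | succ k ih =>
    rw [Nat.mul_succ, pow_add, pow_mul, ih, hx i]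

theorem mainb_le {α β : Type} {X X' : Set α} {Y Y' : Set β} {I : α → β → Prop} {l l' : ℕ}
    (hX : X ⊆ X') (hY : Y ⊆ Y') (h : SymDesign X Y I l) (h' : SymDesign X' Y' I l')
    {a b : α} (ha : a ∈ X) (hb : b ∈ X) (hab : a ≠ b) : l ≤ l' := by
  obtain ⟨-, -, -, k, -, -, h3⟩ := h
  obtain ⟨-, hYf, -, k', -, -, h3'⟩ := h'
  rw [← h3 a ha b hb hab, ← h3' a (hX ha) b (hX hb) hab]
  refine Set.ncard_le_ncard ?_ (hYf.subset ?_)
  · rintro y ⟨hy, h1, h2⟩
    exact ⟨hY hy, h1, h2⟩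
  · rintro y ⟨hy, -, -⟩
    exact hy

theorem st_MAINB (hK : ST_MAINK) : ST_MAINB := by
  intro F K _ _ _ _ _ _ N M ι κ μ _ _ _ P T Q U R W L m hm h
  classical
  by_cases hfin : (Pts P T K).Finite
  · exact Or.inl hfin
  right
  intro n hn hmn
  obtain ⟨l, hl1, hlL, hd⟩ := h n hn hmn
  by_cases hex : ∃ a ∈ fx (Nat.card F) n (Pts P T K), ∃ b ∈ fx (Nat.card F) n (Pts P T K), a ≠ b
  · obtain ⟨a, ha, b, hb, hab⟩ := hex
    rcases Nat.lt_or_ge l 2 with hl2 | hl2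
    · have : l = 1 := by omega
      rwa [this] at hd
    · exfalso
      let S : ℕ → Prop := fun l' => ∃ n', 0 < n' ∧ n ∣ n' ∧ 1 ≤ l' ∧ l' ≤ L ∧
        SymDesign (fx (Nat.card F) n' (Pts P T K)) (fx (Nat.card F) n' (Pts Q U K)) (Inc R W) l'
      have hSl : S l := ⟨n, hn, dvd_rfl, hl1, hlL, hd⟩
      obtain ⟨ns, hns, hnns, h1s, hLs, hds⟩ : S (Nat.findGreatest S L) :=
        Nat.findGreatest_spec hlL hSl
      have hmax : ∀ l', S l' → l' ≤ Nat.findGreatest S L := fun l' hl' =>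
        Nat.le_findGreatest hl'.choose_spec.2.2.2.1 hl'
      refine hfin (hK F K N M ι κ μ P T Q U R W (Nat.findGreatest S L) ns
        (hl2.trans (hmax l hSl)) hns ?_)
      intro n' hn' hnn'
      obtain ⟨l', hl1', hlL', hd'⟩ := h n' hn' (hmn.trans (hnns.trans hnn'))
      have hle : l' ≤ Nat.findGreatest S L :=
        hmax l' ⟨n', hn', hnns.trans hnn', hl1', hlL', hd'⟩
      have hge : Nat.findGreatest S L ≤ l' :=
        mainb_le (mainb_fx_mono _ _ _ hnn' _) (mainb_fx_mono _ _ _ hnn' _) hds hd'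
          (mainb_fx_mono _ _ _ hnns _ ha) (mainb_fx_mono _ _ _ hnns _ hb) hab
      rwa [le_antisymm hle hge] at hd'
  · obtain ⟨hX, hY, hc, k, hk, h1, -⟩ := hd
    refine ⟨hX, hY, hc, k, hk, h1, ?_⟩
    intro x hx x' hx' hxx'
    exact absurd ⟨x, hx, x', hx', hxx'⟩ hex

end Pool.Agent.Helper92.AH
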